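import Pool.Agent.Lib.TGJ_h25.TopDefs

/-!
# TANK G: a closed formula for the bound
-/

set_option autoImplicit false

namespace Pool.Agent.TG26

open Pool.Agent.TGTop Pool.Agent.TGBC Pool.Agent.TGBC74

/-- The closed bound. -/
def bd (n : ℕ) : ℕ := (n + 7) ^ 3 * (2 * n * (n + 2)) ^ n * n.factorial ^ 2

theorem bd_mono {m n : ℕ} (h : m ≤ n) : bd m ≤ bd n := by
  unfold bd
  refine Nat.mul_le_mul (Nat.mul_le_mul (Nat.pow_le_pow_left (by omega) 3) ?_)
    (Nat.pow_le_pow_left (Nat.factorial_le h) 2)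
  rcases Nat.eq_zero_or_pos n with rfl | hn
  · obtain rfl : m = 0 := by omega
    exact le_rfl
  · refine (Nat.pow_le_pow_left (?_ : 2 * m * (m + 2) ≤ 2 * n * (n + 2)) m).trans
      (Nat.pow_le_pow_right ?_ h)
    · exact Nat.mul_le_mul (by omega) (by omega)
    · exact Nat.mul_pos (by omega) (by omega)

theorem dB_le_bd (m : ℕ) : dB m ≤ bd (m + 1) := by
  have hF : 1 ≤ (m + 1).factorial := Nat.factorial_pos _
  have hB : 2 * (m + 1) ≤ (2 * (m + 1)) ^ (m + 1) := by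
    calc 2 * (m + 1) = (2 * (m + 1)) ^ 1 := (pow_one _).symm
      _ ≤ _ := Nat.pow_le_pow_right (by omega) (by omega)
  have hQ : 1 ≤ (m + 3) ^ m := Nat.pos_of_ne_zero (pow_ne_zero _ (by omega))
  unfold dB
  refine max_le ?_ ?_
  · unfold degB bd C₁
    have e : (2 * (m + 1) * (m + 1 + 2)) ^ (m + 1) =
        (2 * (m + 1)) ^ (m + 1) * (m + 3) ^ (m + 1) := by rw [mul_pow]
    rw [e]
    generalize (2 * (m + 1)) ^ (m + 1) = B at *
    generalize (m + 1).factorial = F at *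
    generalize (m + 3) ^ (m + 1) = R at *
    have h1 : (m + 1 + 7) * 1 ≤ (m + 1 + 7) ^ 3 * B := by
      have : (m + 1 + 7) ≤ (m + 1 + 7) ^ 3 := Nat.le_self_pow (by norm_num) _
      exact Nat.mul_le_mul this (by omega)
    have h2 : F ≤ F ^ 2 := Nat.le_self_pow (by norm_num) _
    calc R * ((m + 1 + 7) * F) = ((m + 1 + 7) * 1) * R * F := by ring
      _ ≤ ((m + 1 + 7) ^ 3 * B) * R * F ^ 2 := Nat.mul_le_mul (Nat.mul_le_mul h1 le_rfl) h2
      _ = _ := by ring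
  · unfold ramB bd C₂ C₃ C₁ T₀
    have e : (2 * (m + 1) * (m + 1 + 2)) ^ (m + 1) =
        (2 * (m + 1)) ^ (m + 1) * ((m + 3) * (m + 3) ^ m) := by rw [mul_pow]; ring
    rw [e]
    generalize (2 * (m + 1)) ^ (m + 1) = B at *
    generalize (m + 1).factorial = F at *
    generalize (m + 3) ^ m = Q at *
    have h1 : 2 * ((m + 8) * B) * (2 + (m + 8) * F) + (m + 1) * (m + 2) ≤
        3 * ((m + 8) ^ 2 * B * F) := by
      have h2 : (m + 1) * (m + 2) ≤ 4 * ((m + 8) * B) := by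
        calc (m + 1) * (m + 2) ≤ B * (m + 8) := Nat.mul_le_mul (by omega) (by omega)
          _ ≤ 4 * ((m + 8) * B) := by nlinarith
      have h3 : 8 * ((m + 8) * B) ≤ (m + 8) ^ 2 * B * F := by
        calc 8 * ((m + 8) * B) = 8 * ((m + 8) * B) * 1 := by ring
          _ ≤ (m + 8) * ((m + 8) * B) * F :=
            Nat.mul_le_mul (Nat.mul_le_mul (by omega) le_rfl) hF
          _ = _ := by ring
      calc 2 * ((m + 8) * B) * (2 + (m + 8) * F) + (m + 1) * (m + 2)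
          = 2 * ((m + 8) ^ 2 * B * F) + 4 * ((m + 8) * B) + (m + 1) * (m + 2) := by ring
        _ ≤ 2 * ((m + 8) ^ 2 * B * F) + 4 * ((m + 8) * B) + 4 * ((m + 8) * B) := by omega
        _ ≤ _ := by omega
    calc Q * (2 * ((m + 1 + 7) * B) * (1 + (m + 1 + 7) * F) * ((m + 1 + 7) * F) +
          2 * ((m + 1 + 7) * B) * ((m + 1 + 7) * F)) +
          (m + 1) * (m + 2) * Q * ((m + 1 + 7) * F)
        = (Q * ((m + 8) * F)) * (2 * ((m + 8) * B) * (2 + (m + 8) * F) + (m + 1) * (m + 2)) := by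
          ring
      _ ≤ (Q * ((m + 8) * F)) * (3 * ((m + 8) ^ 2 * B * F)) := Nat.mul_le_mul le_rfl h1
      _ = 3 * ((m + 8) ^ 3 * (B * Q) * F ^ 2) := by ring
      _ ≤ (m + 3) * ((m + 8) ^ 3 * (B * Q) * F ^ 2) := Nat.mul_le_mul (by omega) le_rfl
      _ = _ := by ring

theorem dB_lt_of_bd {n p : ℕ} (h : bd n < p) : ∀ m < n, dB m < p := fun m hm =>
  ((dB_le_bd m).trans (bd_mono hm)).trans_lt h

end Pool.Agent.TG26
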