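import Pool.Agent.Lib.TG9.Rows
import Pool.Agent.Lib.TG_h67.Log3
import Pool.Agent.Lib.TGS27.Skel2
import Pool.Agent.Lib.TGL_h18.Ind

/-!
# TANK G: resolution of singularities and principalization in large characteristic
-/

set_option autoImplicit false

open AlgebraicGeometry CategoryTheory

namespace Pool.Agent.TG26

open Pool.Agent.LU2G (consts)
open Pool.Agent.TG9 (d9)

/-- The two rows. -/
theorem rows9 : TGS27.Rows2 fun m => d9 (m + 1) where
  proj := TG9.rows2_proj
  step p hp k _ hk m d hd hG hP := by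
    have := hk.closed
    have := hk.char
    have : Fact p.Prime := ⟨hp⟩
    exact TGL.glo_step hd hG hP

theorem d9_eq (n : ℕ) : d9 n = (n + 6) * n.factorial * ((2 * n + 3) ^ 2 * (n + 1)) ^ n := by
  unfold d9 TG9.C9
  rw [mul_pow (2 * n + 3) (n + 1) n, mul_pow ((2 * n + 3) ^ 2) (n + 1) n, ← pow_mul, mul_comm 2 n,
    pow_mul]
  ring

theorem d9_mono {m n : ℕ} (h : m ≤ n) : d9 m ≤ d9 n := by
  rw [d9_eq, d9_eq]
  refine Nat.mul_le_mul (Nat.mul_le_mul (by omega) (Nat.factorial_le h)) ?_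
  refine (Nat.pow_le_pow_left ?_ m).trans (Nat.pow_le_pow_right ?_ h)
  · exact Nat.mul_le_mul (Nat.pow_le_pow_left (by omega) 2) (by omega)
  · exact Nat.mul_pos (Nat.pow_pos (by omega)) (by omega)

/-- `[n]` for `p` larger than the closed bound. -/
theorem wl9 (n p : ℕ) (hb : (n + 6) * n.factorial * ((2 * n + 3) ^ 2 * (n + 1)) ^ n < p)
    (hp : p.Prime) (k : Type) [Field k] [IsAlgClosed k] [CharP k p] : TG.WL k n :=
  TGS27.wl_of_rows2 rows9 n p hp
    (fun _ hm => (d9_mono hm).trans_lt ((d9_eq n).trans_lt hb)) k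

/-- **Resolution of singularities and principalization of ideal sheaves in large
characteristic.** -/
theorem principalization9 (n p : ℕ)
    (hb : (n + 6) * n.factorial * ((2 * n + 3) ^ 2 * (n + 1)) ^ n < p) (hp : p.Prime) (k : Type)
    [Field k] [IsAlgClosed k] [CharP k p] (X : Scheme.{0}) (f : X ⟶ Spec (CommRingCat.of k))
    (_ : IsIntegral X) (_ : LocallyOfFiniteType f) (_ : QuasiCompact f)
    (hn : @Algebra.trdeg k X.functionField _ _ (consts f).toAlgebra = n)
    (I : X.IdealSheafData) (hI : I ≠ ⊥) :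
    ∃ (Y : Scheme.{0}) (π : Y ⟶ X), IsIntegral Y ∧ IsProper π ∧
      AlgebraicGeometry.Smooth (π ≫ f) ∧
      (∃ U : X.Opens, Dense (U : Set X) ∧ IsIso (π ∣_ U)) ∧
      ∀ y : Y, IsClosed {y} → ∃ (t : Fin n → Y.presheaf.stalk y) (e : Fin n → ℕ),
        Ideal.span (Set.range t) = IsLocalRing.maximalIdeal (Y.presheaf.stalk y) ∧
        ∀ (U : X.affineOpens) (hU : π y ∈ U.1),
          (I.ideal U).map (X.presheaf.germ U.1 (π y) hU ≫ π.stalkMap y).hom =
            Ideal.span {∏ i, t i ^ e i} := by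
  have hX : CompactSpace X := QuasiCompact.compactSpace_of_compactSpace f
  exact TGS.principalization_of_WL (wl9 n p hb hp k) X f hn I hI

end Pool.Agent.TG26
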