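import Pool.Agent.Lib.TG_h26.Bound
import Pool.Agent.Lib.TG_h67.Log3
import Pool.Agent.Lib.TGS27.Skel2

/-!
# TANK G: the final theorem with the closed bound
-/

set_option autoImplicit false

open AlgebraicGeometry CategoryTheory

namespace Pool.Agent.TG26

open Pool.Agent.LU2G (consts)

/-- Resolution of singularities and principalization of ideal sheaves, for `p` larger than the
closed bound. -/
theorem principalization_of_rows (h : TGS27.Rows2 TGTop.dB) (n p : ℕ)
    (hb : (n + 7) ^ 3 * (2 * n * (n + 2)) ^ n * n.factorial ^ 2 < p) (hp : p.Prime) (k : Type)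
    [Field k] [IsAlgClosed k] [CharP k p] (X : Scheme.{0}) (f : X ⟶ Spec (CommRingCat.of k))
    (_ : IsIntegral X) (_ : LocallyOfFiniteType f) (_ : QuasiCompact f)
    (hn : @Algebra.trdeg k X.functionField _ _ (consts f).toAlgebra = n)
    (I : X.IdealSheafData) (hI : I ≠ ⊥) :
    ∃ (Y : Scheme.{0}) (π : Y ⟶ X), IsIntegral Y ∧ IsProper π ∧
      AlgebraicGeometry.Smooth (π ≫ f) ∧
      (∃ U : X.Opens, Dense (U : Set X) ∧ IsIso (π ∣_ U)) ∧
      ∀ y : Y, IsClosed {y} → ∃ (t : Fin n → Y.presheaf.stalk y) (e : Fin n → ℕ),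
        Ideal.span (Set.range t) = IsLocalRing.maximalIdeal (Y.presheaf.stalk y) ∧
        ∀ (U : X.affineOpens) (hU : π y ∈ U.1),
          (I.ideal U).map (X.presheaf.germ U.1 (π y) hU ≫ π.stalkMap y).hom =
            Ideal.span {∏ i, t i ^ e i} := by
  have hX : CompactSpace X := QuasiCompact.compactSpace_of_compactSpace f
  exact TGS.principalization_of_WL (TGS27.wl_of_rows2 h n p hp (dB_lt_of_bd hb) k) X f hn I hI

end Pool.Agent.TG26
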